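import Pool.Agent.BEL.StmtsP

/-!
Squad BEL, row INP (helper32): the input of the core.
-/

set_option autoImplicit false

namespace Pool.Agent.BEL.H32

open Set Filter Topology MeasureTheory
open scoped InnerProductSpace ENNReal
open Pool.Agent.BE01 Pool.Agent.BEL

/-- The exponent. -/
theorem expo (d : ℕ) (al : ℝ) (h : ((d : ℝ) - 2) * al < 4) :
    ∃ p : ℝ, al + 2 < p ∧ ((d : ℝ) - 2) * p ≤ 2 * d := by
  by_cases h2 : (d : ℝ) ≤ 2
  · refine ⟨al + 3, by linarith, ?_⟩
    have h3 : 0 ≤ (d : ℝ) := Nat.cast_nonneg d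
    nlinarith
  · push Not at h2
    have h3 : 0 < (d : ℝ) - 2 := by linarith
    refine ⟨2 * d / ((d : ℝ) - 2), ?_, ?_⟩
    · rw [lt_div_iff₀ h3]
      nlinarith
    · rw [mul_div_cancel₀ _ h3.ne']

theorem inp (lpe : LpeStmt) (grw : GrwStmt) (itr : ItrStmt) : InpStmt := by
  intro d Ω ι b e om al hd hΩ hι hS hal hdal
  obtain ⟨g1, -⟩ := grw d Ω ι b e om hd hΩ hι hS
  refine ⟨?_, hS.pos, hS.mono, hS.top, g1, itr d Ω ι b e om hd hΩ hι hS, ?_⟩
  · refine ⟨?_⟩
    unfold mu
    rw [Measure.restrict_apply_univ]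
    exact hΩ.2.1.measure_lt_top
  obtain ⟨p, hp1, hp2⟩ := expo d al hdal
  obtain ⟨C, hC, hL⟩ := lpe d Ω ι p hd hΩ hι (by linarith) hp2
  refine ⟨p, hp1, C, ?_⟩
  intro n c
  -- the element of `VV Ω`
  let G : VV Ω := ∑ k ∈ Finset.range n, (c k * om k) • e k
  have hG : ι G = ∑ k ∈ Finset.range n, c k • b k := by
    apply b.repr.injective
    refine lp.ext (funext fun j => ?_)
    rw [b.repr_apply_apply, b.repr_apply_apply, hS.rel j G]
    have h1 : ⟪e j, G⟫_ℝ = if j ∈ Finset.range n then c j * om j else 0 := by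
      show ⟪e j, ∑ k ∈ Finset.range n, (c k * om k) • e k⟫_ℝ = _
      rw [inner_sum]
      have h2 : ∀ k ∈ Finset.range n, ⟪e j, (c k * om k) • e k⟫_ℝ =
          if j = k then c k * om k else 0 := by
        intro k _
        refine (inner_smul_right (𝕜 := ℝ) (e j) (e k) (c k * om k)).trans ?_
        rw [orthonormal_iff_ite.1 e.orthonormal j k]
        split_ifs <;> ring
      rw [Finset.sum_congr rfl h2, Finset.sum_ite_eq]
    have h3 : ⟪b j, ∑ k ∈ Finset.range n, c k • b k⟫_ℝ = if j ∈ Finset.range n then c j else 0 := by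
      rw [inner_sum]
      have h2 : ∀ k ∈ Finset.range n, ⟪b j, c k • b k⟫_ℝ = if j = k then c k else 0 := by
        intro k _
        rw [inner_smul_right, orthonormal_iff_ite.1 b.orthonormal j k]
        split_ifs <;> ring
      rw [Finset.sum_congr rfl h2, Finset.sum_ite_eq]
    rw [h1, h3]
    split_ifs
    · have := (hS.pos j).ne'
      field_simp
    · rw [mul_zero]
  have hnorm : ‖G‖ = Real.sqrt (∑ k ∈ Finset.range n, om k ^ 2 * c k ^ 2) := by
    have h4 : ‖G‖ ^ 2 = ∑ k ∈ Finset.range n, om k ^ 2 * c k ^ 2 := by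
      rw [← real_inner_self_eq_norm_sq]
      show ⟪∑ k ∈ Finset.range n, (c k * om k) • e k, ∑ k ∈ Finset.range n, (c k * om k) • e k⟫_ℝ = _
      rw [e.orthonormal.inner_sum]
      refine Finset.sum_congr rfl fun k _ => ?_
      rw [conj_trivial]
      ring
    rw [← h4, Real.sqrt_sq (norm_nonneg _)]
  have hcoe : (fun x => ∑ k ∈ Finset.range n, c k * b k x) =ᵐ[mu Ω] ι G := by
    rw [hG]
    have h5 : ∀ m : ℕ, (fun x => ∑ k ∈ Finset.range m, c k * b k x) =ᵐ[mu Ω]
        (↑(∑ k ∈ Finset.range m, c k • b k) : Lp ℝ 2 (mu Ω)) := by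
      intro m
      induction m with
      | zero =>
        simp only [Finset.range_zero, Finset.sum_empty]
        filter_upwards [Lp.coeFn_zero ℝ 2 (mu Ω)] with x hx
        rw [hx]
        rfl
      | succ m ih =>
        rw [Finset.sum_range_succ]
        filter_upwards [ih, Lp.coeFn_add (∑ k ∈ Finset.range m, c k • b k) (c m • b m),
          Lp.coeFn_smul (c m) (b m)] with x h6 h7 h8
        rw [Finset.sum_range_succ, h7, Pi.add_apply, ← h6, h8, Pi.smul_apply, smul_eq_mul]
    exact h5 n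
  rw [eLpNorm_congr_ae hcoe, ← hnorm]
  exact hL G

end Pool.Agent.BEL.H32
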