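import Pool.Agent.BEL.StmtsC

/-!
Squad BEL, row EX3 (helper32): the expectation of the square of an inner product.
-/

set_option autoImplicit false

namespace Pool.Agent.BEL.H32

open Set Filter Topology MeasureTheory
open scoped InnerProductSpace ENNReal

theorem ex3 (rd2 : Rd2Stmt) : Ex3Stmt := by
  intro K _ _ B r x z hB h
  have h1 := rd2 ℝ r (fun i => ⟪z, x i⟫_ℝ)
  have h2 : (fun ε : Fin r → Bool => ⟪z, ∑ i, sg (ε i) • x i⟫_ℝ ^ 2) =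
      fun ε : Fin r → Bool => ‖∑ i, sg (ε i) • ⟪z, x i⟫_ℝ‖ ^ 2 := by
    funext ε
    rw [inner_sum, Real.norm_eq_abs, sq_abs]
    congr 1
    refine Finset.sum_congr rfl fun i _ => ?_
    rw [real_inner_smul_right, smul_eq_mul]
  rw [h2, h1]
  have h3 : ∑ i, ‖⟪z, x i⟫_ℝ‖ ^ 2 = ∑ i, ⟪z, x i⟫_ℝ ^ 2 :=
    Finset.sum_congr rfl fun i _ => by rw [Real.norm_eq_abs, sq_abs]
  rw [h3]
  obtain ⟨S, hS⟩ : ∃ S : ℝ, S = ∑ i, ⟪z, x i⟫_ℝ ^ 2 := ⟨_, rfl⟩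
  rw [← hS]
  have hS0 : 0 ≤ S := by
    rw [hS]
    exact Finset.sum_nonneg fun i _ => sq_nonneg _
  have h4 : ⟪z, ∑ i, ⟪z, x i⟫_ℝ • x i⟫_ℝ = S := by
    rw [inner_sum, hS]
    refine Finset.sum_congr rfl fun i _ => ?_
    rw [real_inner_smul_right]
    ring
  have h5 := h (fun i => ⟪z, x i⟫_ℝ)
  rw [← hS] at h5
  have h6 : S ≤ ‖z‖ * ‖∑ i, ⟪z, x i⟫_ℝ • x i‖ := by
    rw [← h4]
    exact real_inner_le_norm _ _
  have h7 : S ^ 2 ≤ ‖z‖ ^ 2 * (B * S) := by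
    calc S ^ 2 ≤ (‖z‖ * ‖∑ i, ⟪z, x i⟫_ℝ • x i‖) ^ 2 := pow_le_pow_left₀ hS0 h6 2
      _ = ‖z‖ ^ 2 * ‖∑ i, ⟪z, x i⟫_ℝ • x i‖ ^ 2 := by ring
      _ ≤ ‖z‖ ^ 2 * (B * S) := mul_le_mul_of_nonneg_left h5 (sq_nonneg _)
  rcases hS0.eq_or_lt with h8 | h8
  · rw [← h8]
    positivity
  · have h9 : S * S ≤ B * ‖z‖ ^ 2 * S := by nlinarith
    exact le_of_mul_le_mul_right h9 h8

end Pool.Agent.BEL.H32
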