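import Pool.Agent.BEL.StmtsU

/-!
Squad BEL, row UWI (helper32): the energy satisfies the window inequality.
-/

set_option autoImplicit false

namespace Pool.Agent.BEL.H32

open Set Filter Topology MeasureTheory
open scoped InnerProductSpace ENNReal

theorem uwi (uen : UenStmt) (uho : UhoStmt) (umi : UmiStmt) : UwiStmt := by
  intro X _ μ a al b om ha hal hinp
  obtain ⟨C1, hC1, h1⟩ := uho X μ a al b om ha hal hinp
  obtain ⟨C2, hC2, h2⟩ := umi X μ a al b om ha hal hinp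
  have hom : 0 < om 0 := hinp.pos 0
  have hal2 : 0 < al + 2 := by linarith
  obtain ⟨τ, hτ⟩ : ∃ τ : ℝ, τ = 1 / om 0 + 1 := ⟨_, rfl⟩
  have hτ0 : 0 < τ := by
    rw [hτ]
    positivity
  obtain ⟨K1, hK1⟩ : ∃ K1 : ℝ, K1 = 2 * (C1 * τ ^ (al / (al + 2))) * (1 / (2 * a)) ^ (2 / (al + 2)) :=
    ⟨_, rfl⟩
  obtain ⟨K3, hK3⟩ : ∃ K3 : ℝ, K3 = C2 * τ ^ (1 / (al + 2)) * (1 / (2 * a)) ^ ((al + 1) / (al + 2)) :=
    ⟨_, rfl⟩
  have hK10 : 0 ≤ K1 := by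
    rw [hK1]
    positivity
  have hK30 : 0 ≤ K3 := by
    rw [hK3]
    positivity
  have hK2 : 0 ≤ 1 / om 0 := by positivity
  refine ⟨K1 + 1 / om 0 + K3 + 1, τ, by linarith, hτ0, ?_⟩
  intro z1 z2 hz
  have hE0 : ∀ t, 0 ≤ enr μ z1 z2 t := fun t => by
    unfold enr
    positivity
  have hDis0 : ∀ r, 0 ≤ Dis μ (al + 2) z2 r := fun r => ENNReal.toReal_nonneg
  have hU := (uen X μ a al b om ha hal hinp z1 z2 hz).1
  have hD0 : ∀ s t, s ≤ t → 0 ≤ ∫ r in s..t, Dis μ (al + 2) z2 r := fun s t hst =>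
    intervalIntegral.integral_nonneg hst fun r _ => hDis0 r
  have hmono : ∀ s t, 0 ≤ s → s ≤ t → enr μ z1 z2 t ≤ enr μ z1 z2 s := by
    intro s t hs hst
    have h3 := (hU s t hs hst).2
    have h4 : 0 ≤ 2 * a * ∫ r in s..t, Dis μ (al + 2) z2 r := mul_nonneg (by linarith) (hD0 s t hst)
    linarith
  refine ⟨fun t _ => hE0 t, hmono, ?_⟩
  intro s hs
  obtain ⟨t, ht⟩ : ∃ t : ℝ, t = s + τ := ⟨_, rfl⟩
  rw [← ht]
  have hst : s ≤ t := by linarith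
  have ht0 : 0 ≤ t := by linarith
  have hts : t - s = τ := by linarith
  obtain ⟨Δ, hΔ⟩ : ∃ Δ : ℝ, Δ = ∫ r in s..t, Dis μ (al + 2) z2 r := ⟨_, rfl⟩
  obtain ⟨δ, hδ⟩ : ∃ δ : ℝ, δ = enr μ z1 z2 s - enr μ z1 z2 t := ⟨_, rfl⟩
  have hδ0 : 0 ≤ δ := by
    rw [hδ]
    linarith [hmono s t hs hst]
  have hΔ0 : 0 ≤ Δ := by
    rw [hΔ]
    exact hD0 s t hst
  have hΔδ : Δ ≤ 1 / (2 * a) * δ := by
    have h3 := (hU s t hs hst).2
    rw [← hΔ, ← hδ] at h3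
    rw [one_div, inv_mul_eq_div, le_div_iff₀ (by linarith)]
    linarith
  have hpow : ∀ q : ℝ, 0 ≤ q → Δ ^ q ≤ (1 / (2 * a)) ^ q * δ ^ q := by
    intro q hq
    rw [← Real.mul_rpow (by positivity) hδ0]
    exact Real.rpow_le_rpow hΔ0 hΔδ hq
  -- integrability
  have hsub : uIcc s t ⊆ Ici (0 : ℝ) := by
    rw [uIcc_of_le hst]
    exact fun r hr => hs.trans hr.1
  have hi1 : IntervalIntegrable (fun r => ‖z1 r‖ ^ 2) volume s t :=
    ((hz.c1.mono hsub).norm.pow 2).intervalIntegrable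
  have hi2 : IntervalIntegrable (fun r => ‖z2 r‖ ^ 2) volume s t :=
    ((hz.c2.mono hsub).norm.pow 2).intervalIntegrable
  have h3 : τ * enr μ z1 z2 t ≤ (∫ r in s..t, ‖z1 r‖ ^ 2) + ∫ r in s..t, ‖z2 r‖ ^ 2 := by
    rw [← intervalIntegral.integral_add hi1 hi2]
    have h4 : ∫ _ in s..t, enr μ z1 z2 t = τ * enr μ z1 z2 t := by
      rw [intervalIntegral.integral_const, hts, smul_eq_mul]
    rw [← h4]
    refine intervalIntegral.integral_mono_on hst intervalIntegrable_const (hi1.add hi2) ?_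
    intro r hr
    exact hmono r t (hs.trans hr.1) hr.2
  have h4 := h1 z1 z2 hz s t hs hst
  have h5 := h2 z1 z2 hz s t hs hst
  rw [hts, ← hΔ] at h4 h5
  have hsq : 0 ≤ Real.sqrt (enr μ z1 z2 s) := Real.sqrt_nonneg _
  have h6 : C1 * τ ^ (al / (al + 2)) * Δ ^ (2 / (al + 2)) ≤
      C1 * τ ^ (al / (al + 2)) * ((1 / (2 * a)) ^ (2 / (al + 2)) * δ ^ (2 / (al + 2))) :=
    mul_le_mul_of_nonneg_left (hpow _ (by positivity)) (by positivity)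
  have h7 : C2 * τ ^ (1 / (al + 2)) * Δ ^ ((al + 1) / (al + 2)) * Real.sqrt (enr μ z1 z2 s) ≤
      C2 * τ ^ (1 / (al + 2)) * ((1 / (2 * a)) ^ ((al + 1) / (al + 2)) * δ ^ ((al + 1) / (al + 2))) *
        Real.sqrt (enr μ z1 z2 s) :=
    mul_le_mul_of_nonneg_right (mul_le_mul_of_nonneg_left (hpow _ (by positivity)) (by positivity))
      hsq
  have h8 : enr μ z1 z2 s = enr μ z1 z2 t + δ := by
    rw [hδ]
    ring
  have h9 : τ * enr μ z1 z2 t ≤ 2 * (C1 * τ ^ (al / (al + 2)) *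
      ((1 / (2 * a)) ^ (2 / (al + 2)) * δ ^ (2 / (al + 2)))) + (enr μ z1 z2 t + δ) / om 0 +
      C2 * τ ^ (1 / (al + 2)) * ((1 / (2 * a)) ^ ((al + 1) / (al + 2)) * δ ^ ((al + 1) / (al + 2))) *
        Real.sqrt (enr μ z1 z2 s) := by
    rw [← h8]
    linarith
  have h10 : τ * enr μ z1 z2 t = enr μ z1 z2 t / om 0 + enr μ z1 z2 t := by
    rw [hτ]
    ring
  have h11 : enr μ z1 z2 t ≤ K1 * δ ^ (2 / (al + 2)) + 1 / om 0 * δ +
      K3 * (δ ^ ((al + 1) / (al + 2)) * Real.sqrt (enr μ z1 z2 s)) := by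
    rw [h10, add_div] at h9
    rw [hK1, hK3]
    have h12 : (1 / om 0) * δ = δ / om 0 := by ring
    rw [h12]
    nlinarith [h9]
  have hA : 0 ≤ δ ^ (2 / (al + 2)) := Real.rpow_nonneg hδ0 _
  have hB : 0 ≤ δ ^ ((al + 1) / (al + 2)) * Real.sqrt (enr μ z1 z2 s) :=
    mul_nonneg (Real.rpow_nonneg hδ0 _) hsq
  refine h11.trans ?_
  rw [← hδ]
  have e1 : K1 * δ ^ (2 / (al + 2)) ≤ (K1 + 1 / om 0 + K3 + 1) * δ ^ (2 / (al + 2)) :=
    mul_le_mul_of_nonneg_right (by linarith) hA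
  have e2 : 1 / om 0 * δ ≤ (K1 + 1 / om 0 + K3 + 1) * δ :=
    mul_le_mul_of_nonneg_right (by linarith) hδ0
  have e3 : K3 * (δ ^ ((al + 1) / (al + 2)) * Real.sqrt (enr μ z1 z2 s)) ≤
      (K1 + 1 / om 0 + K3 + 1) * (δ ^ ((al + 1) / (al + 2)) * Real.sqrt (enr μ z1 z2 s)) :=
    mul_le_mul_of_nonneg_right (by linarith) hB
  rw [mul_add, mul_add]
  linarith

end Pool.Agent.BEL.H32
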